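import Pool.Agent.Helper5.PQ.Stm

namespace Pool.Agent.Helper76.PQ

open Finset Classical Pool.Agent.Helper5.RD Pool.Agent.Helper5.PQ

theorem pr2 : S_PR1 → S_PR2 := by
  intro hPR1 Q g T δ hδ hδ1 hg hT hQ A h hA hE hh
  have hlt : ∀ (i : Fin T) (a : Fin g), (i : ℕ) * g + a < Q.card := by
    intro i a
    have h1 : ((i : ℕ) + 1) * g ≤ T * g := Nat.mul_le_mul_right g i.2
    have h2 := a.2
    nlinarith
  let e := Q.orderEmbOfFin rfl
  let R : Fin T → Finset ℕ := fun i =>
    Finset.univ.image (fun a : Fin g => e ⟨(i : ℕ) * g + a, hlt i a⟩)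
  have hRcard : ∀ i, (R i).card = g := by
    intro i
    rw [Finset.card_image_of_injective, Finset.card_univ, Fintype.card_fin]
    intro a b hab
    have h3 := e.injective hab
    simp only [Fin.mk.injEq] at h3
    exact Fin.ext (by omega)
  have hRQ : ∀ i, R i ⊆ Q := by
    intro i q hq
    obtain ⟨a, -, rfl⟩ := Finset.mem_image.mp hq
    exact Finset.orderEmbOfFin_mem Q rfl _
  have hRlt : ∀ i j, i < j → ∀ q ∈ R i, ∀ p ∈ R j, q < p := by
    intro i j hij q hq p hp
    obtain ⟨a, -, rfl⟩ := Finset.mem_image.mp hq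
    obtain ⟨b, -, rfl⟩ := Finset.mem_image.mp hp
    apply e.strictMono
    rw [Fin.mk_lt_mk]
    have h1 : ((i : ℕ) + 1) * g ≤ (j : ℕ) * g := Nat.mul_le_mul_right g hij
    have h2 := a.2
    nlinarith
  have hS : ∀ i, ∃ A' ⊆ A, (∀ z ∈ A', h ≤ DegA (R i) A' z) ∧ δ * A.card ≤ (A'.card : ℝ) :=
    fun i => hPR1 A (R i) δ h hδ hδ1 (fun q hq => hE q (hRQ i hq)) (by rw [hRcard]; exact hh)
  choose S hSA hSdeg hScard using hS
  by_contra hcon
  have hsmall : ∀ i j, i ≠ j → T ^ 2 * (S i ∩ S j).card < A.card := by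
    intro i j hij
    by_contra hge
    push Not at hge
    rcases lt_or_gt_of_ne hij with hl | hl
    · exact hcon ⟨R i, R j, hRQ i, hRQ j, hRlt i j hl, hRcard i, hRcard j, S i, S j, hSA i, hSA j,
        hSdeg i, hSdeg j, hge⟩
    · exact hcon ⟨R j, R i, hRQ j, hRQ i, hRlt j i hl, hRcard j, hRcard i, S j, S i, hSA j, hSA i,
        hSdeg j, hSdeg i, by rw [Finset.inter_comm]; exact hge⟩
  have hAc : (0 : ℝ) < A.card := by exact_mod_cast Finset.card_pos.mpr hA
  have hTpos : (0 : ℝ) < T := by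
    rcases Nat.eq_zero_or_pos T with h0 | h0
    · subst h0; norm_num at hT
    · exact_mod_cast h0
  -- the counting function
  have hcard : ∀ U : Finset (ℕ × Finset ℕ), U ⊆ A →
      (U.card : ℝ) = ∑ z ∈ A, if z ∈ U then (1 : ℝ) else 0 := by
    intro U hU
    rw [Finset.sum_ite_mem, Finset.inter_eq_right.mpr hU]
    simp
  let d : ℕ × Finset ℕ → ℝ := fun z => ∑ i : Fin T, if z ∈ S i then (1 : ℝ) else 0
  have h1 : ∑ z ∈ A, d z = ∑ i, ((S i).card : ℝ) := by
    rw [Finset.sum_comm]
    exact Finset.sum_congr rfl fun i _ => (hcard _ (hSA i)).symm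
  have h2 : ∑ z ∈ A, d z * d z = ∑ i, ∑ j, ((S i ∩ S j).card : ℝ) := by
    have h3 : ∀ z, d z * d z = ∑ i : Fin T, ∑ j : Fin T, if z ∈ S i ∩ S j then (1 : ℝ) else 0 := by
      intro z
      rw [Finset.sum_mul_sum]
      refine Finset.sum_congr rfl fun i _ => Finset.sum_congr rfl fun j _ => ?_
      by_cases hi : z ∈ S i <;> by_cases hj : z ∈ S j <;> simp [hi, hj]
    simp_rw [h3]
    rw [Finset.sum_comm]
    refine Finset.sum_congr rfl fun i _ => ?_
    rw [Finset.sum_comm]
    refine Finset.sum_congr rfl fun j _ => ?_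
    exact (hcard _ (Finset.inter_subset_left.trans (hSA i))).symm
  -- d is a natural number
  have hd : ∀ z, 2 * (d z - 1) ≤ d z * d z - d z := by
    intro z
    have h4 : d z = (((Finset.univ.filter fun i : Fin T => z ∈ S i).card : ℕ) : ℝ) := by
      simp [d]
    rw [h4]
    generalize (Finset.univ.filter fun i : Fin T => z ∈ S i).card = m
    have h5 : (0 : ℝ) ≤ ((m : ℝ) - 1) * ((m : ℝ) - 2) := by
      rcases Nat.lt_or_ge m 2 with h6 | h6
      · interval_cases m <;> norm_num
      · have h7 : (2 : ℝ) ≤ m := by exact_mod_cast h6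
        exact mul_nonneg (by linarith) (by linarith)
    nlinarith
  have h6 : ∑ i, ((S i).card : ℝ) ≥ T * (δ * A.card) := by
    have : ∑ i : Fin T, δ * (A.card : ℝ) ≤ ∑ i, ((S i).card : ℝ) :=
      Finset.sum_le_sum fun i _ => hScard i
    simpa using this
  have h7 : ∑ i, ∑ j, ((S i ∩ S j).card : ℝ) ≤ ∑ i, ((S i).card : ℝ) + A.card := by
    have h8 : ∀ i : Fin T, ∑ j, ((S i ∩ S j).card : ℝ) ≤ (S i).card + A.card / T := by
      intro i
      rw [← Finset.add_sum_erase _ _ (Finset.mem_univ i), Finset.inter_self]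
      have h9 : ∑ j ∈ Finset.univ.erase i, ((S i ∩ S j).card : ℝ) ≤
          ∑ j ∈ Finset.univ.erase i, (A.card : ℝ) / T ^ 2 := by
        refine Finset.sum_le_sum fun j hj => ?_
        have h10 := hsmall i j (Finset.ne_of_mem_erase hj).symm
        rw [le_div_iff₀ (by positivity), mul_comm]
        exact_mod_cast h10.le
      have h11 : ∑ j ∈ (Finset.univ : Finset (Fin T)).erase i, (A.card : ℝ) / T ^ 2 ≤
          (A.card : ℝ) / T := by
        rw [Finset.sum_const, nsmul_eq_mul]
        have h12 : (((Finset.univ : Finset (Fin T)).erase i).card : ℝ) ≤ T := by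
          have h13 := Finset.card_erase_le (s := (Finset.univ : Finset (Fin T))) (a := i)
          simp only [Finset.card_univ, Fintype.card_fin] at h13
          exact_mod_cast h13
        calc (((Finset.univ : Finset (Fin T)).erase i).card : ℝ) * ((A.card : ℝ) / T ^ 2)
            ≤ T * ((A.card : ℝ) / T ^ 2) := by gcongr
          _ = (A.card : ℝ) / T := by field_simp
      linarith
    calc ∑ i, ∑ j, ((S i ∩ S j).card : ℝ) ≤ ∑ i : Fin T, (((S i).card : ℝ) + A.card / T) :=
          Finset.sum_le_sum fun i _ => h8 i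
      _ = ∑ i, ((S i).card : ℝ) + A.card := by
          rw [Finset.sum_add_distrib, Finset.sum_const, Finset.card_univ, Fintype.card_fin,
            nsmul_eq_mul]
          congr 1
          field_simp
  have h14 : ∑ z ∈ A, 2 * (d z - 1) ≤ ∑ z ∈ A, (d z * d z - d z) :=
    Finset.sum_le_sum fun z _ => hd z
  rw [← Finset.mul_sum, Finset.sum_sub_distrib, Finset.sum_sub_distrib, h1, h2] at h14
  simp only [Finset.sum_const, nsmul_eq_mul, mul_one] at h14
  nlinarith [mul_le_mul_of_nonneg_right hT hAc.le]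

end Pool.Agent.Helper76.PQ
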